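import Pool.Agent.MWN.StmtsA

set_option autoImplicit false

namespace Pool.Agent.MWN.H77

open Pool.Agent.Helper14_MV Pool.Agent.Helper2_MV Pool.Agent.MVO Pool.Agent.MWL Pool.Agent.MWS
  Pool.Agent.MWF

theorem count_flat_le (f : ℕ → List ℕ) (l : List ℕ) (d c : ℕ) :
    l.count d * (f d).count c ≤ (l.flatMap f).count c := by
  induction l with
  | nil => simp
  | cons a l ih =>
    rw [List.flatMap_cons, List.count_append]
    by_cases h : a = d
    · subst h
      rw [List.count_cons_self, Nat.add_mul, one_mul]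
      omega
    · rw [List.count_cons_of_ne h]
      omega

theorem perm_flat {f : ℕ → List ℕ} (hc : f 0 ++ f 1 = f 1 ++ f 0) {l l' : List ℕ}
    (h : l.Perm l') (h01 : ∀ c ∈ l, c = 0 ∨ c = 1) : l.flatMap f = l'.flatMap f := by
  induction h with
  | nil => rfl
  | cons x _ ih =>
    rw [List.flatMap_cons, List.flatMap_cons, ih (fun c hc => h01 c (by simp [hc]))]
  | swap x y l =>
    rw [List.flatMap_cons, List.flatMap_cons, List.flatMap_cons, List.flatMap_cons,
      ← List.append_assoc, ← List.append_assoc]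
    have hx : x = 0 ∨ x = 1 := h01 x (by simp)
    have hy : y = 0 ∨ y = 1 := h01 y (by simp)
    rcases hx with rfl | rfl <;> rcases hy with rfl | rfl
    · rfl
    · rw [hc]
    · rw [hc]
    · rfl
  | trans h1 _ ih1 ih2 =>
    rw [ih1 h01, ih2 (fun c hc => h01 c (h1.mem_iff.2 hc))]

theorem asm_flat {f : ℕ → List ℕ} {k : ℕ} {U V : ℕ → List ℕ}
    (h : ∀ j ≤ k, (U j).flatMap f = (V j).flatMap f) :
    (asm k U).flatMap f = (asm k V).flatMap f := by
  induction k with
  | zero => exact h 0 (le_refl 0)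
  | succ k ih =>
    simp only [asm, List.flatMap_append, List.flatMap_cons]
    rw [ih (fun j hj => h j (by omega)), h (k + 1) (le_refl _)]

theorem comm_of {f : ℕ → List ℕ} (h : ∀ c ∈ f 0, ∀ d ∈ f 1, c = d) :
    f 0 ++ f 1 = f 1 ++ f 0 := by
  rcases List.eq_nil_or_concat (f 0) with h0 | ⟨l0, c, h0⟩
  · rw [h0]; simp
  rcases List.eq_nil_or_concat (f 1) with h1 | ⟨l1, d, h1⟩
  · rw [h1]; simp
  have hc : c ∈ f 0 := by rw [h0]; simp
  have hd : d ∈ f 1 := by rw [h1]; simp
  have e1 : f 0 = List.replicate (f 0).length c := by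
    rw [List.eq_replicate_iff]
    refine ⟨rfl, fun b hb => ?_⟩
    rw [h b hb d hd, h c hc d hd]
  have e2 : f 1 = List.replicate (f 1).length c := by
    rw [List.eq_replicate_iff]
    exact ⟨rfl, fun b hb => (h c hc b hb).symm⟩
  rw [e1, e2, ← List.replicate_add, ← List.replicate_add, Nat.add_comm]

theorem ub_of_sat (A : Cd) {m n : ℕ} (h : A.sat n = true) (hmn : m ≤ n) : A.ub m = true := by
  cases A with
  | z =>
    have : n = 0 := by simpa [Cd.sat] using h
    have h2 : m = 0 := by omega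
    simp [Cd.ub, h2]
  | one =>
    have : n = 1 := by simpa [Cd.sat] using h
    have h2 : m ≤ 1 := by omega
    simpa [Cd.ub] using h2
  | pos => rfl
  | two => rfl
  | any => rfl

theorem two_blk {k : ℕ} {W : ℕ → List ℕ} (h : Two01 k W) : BlkOk k W := by
  intro j hj c hc hs
  rcases h j hj c hc with h1 | h1 <;> omega

theorem dir (hN : NdcStmt) (hC : NctStmt) (k k1 : ℕ) (A B : ℕ → Cd) (S : List ℕ → Prop) (i : ℕ)
    (U V : ℕ → List ℕ) (hU : Two01 k1 U)
    (hUV : ∀ j ≤ k1, ∀ c, (U j).count c = (V j).count c) (d0 : 2 ≤ deg k1 (ty U 0))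
    (d1 : 2 ≤ deg k1 (ty U 1)) (hI : IncC k1 k (ty U 0) (ty U 1) A B) (f : ℕ → List ℕ)
    (p q : List ℕ) (h : LG k A B S i (p ++ (asm k1 U).flatMap f ++ q)) :
    LG k A B S i (p ++ (asm k1 V).flatMap f ++ q) := by
  obtain ⟨W, hw, hW, hA, hB, hS⟩ := id h
  have hlet : ∀ e, (e = 0 ∨ e = 1) → ∀ c ∈ f e, c = 0 ∨ c = 1 := by
    intro e he c hc
    have hns : NS k1 e := by rintro ⟨h1, -⟩; omega
    have hcnt : 2 ≤ (asm k1 U).count e := by
      rw [count_asm hns]
      rcases he with rfl | rfl
      · exact d0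
      · exact d1
    have hc1 : 1 ≤ (f e).count c := List.count_pos_iff.2 hc
    have h2 : 2 ≤ (asm k W).count c := by
      rw [← hw, List.count_append, List.count_append]
      have h3 := count_flat_le f (asm k1 U) e c
      have h4 : 2 * 1 ≤ (asm k1 U).count e * (f e).count c := Nat.mul_le_mul hcnt hc1
      omega
    have hm : c ∈ asm k W := List.count_pos_iff.1 (by omega)
    rcases mem_asm.1 hm with ⟨h3, h4⟩ | ⟨j, hj, hcj⟩
    · rw [count_sep (two_blk hW) h3 h4] at h2
      omega
    · exact hW j hj c hcj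
  have key : ∀ c ∈ f 0, ∀ d ∈ f 1, c = d := by
    intro c hc d hd
    by_contra hcd
    obtain ⟨T, g, hg, hT, hTf, hTV⟩ := hN k k1 f p q U W hW hU (by
      rintro c (hc | hc)
      · exact hlet 0 (Or.inl rfl) c hc
      · exact hlet 1 (Or.inr rfl) c hc) hw
    have hblk : BlkOk k (fun t => (T t).flatMap (hv (k + k1 + 2) f U)) := by
      refine two_blk ?_
      intro t ht c hc
      obtain ⟨e, he, hce⟩ := List.mem_flatMap.1 hc
      unfold hv at hce
      by_cases hNe : k + k1 + 2 ≤ e
      · rw [if_pos hNe] at hce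
        have h1 : e ∈ (T t).filter (fun c => decide (k + k1 + 2 ≤ c)) := by
          rw [List.mem_filter]
          exact ⟨he, decide_eq_true hNe⟩
        rw [hTf t ht, List.mem_map] at h1
        obtain ⟨j, hj, hje⟩ := h1
        rw [List.mem_filter, List.mem_range] at hj
        have h2 : e - (k + k1 + 2) = j := by omega
        rw [h2] at hce
        obtain ⟨b, hb, hcb⟩ := List.mem_flatMap.1 hce
        exact hlet b (hU j (by omega) b hb) c hcb
      · rw [if_neg hNe, List.mem_singleton] at hce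
        rw [hce]
        rcases hT t ht e he with h1 | h1 | h1
        · exact Or.inl h1
        · exact Or.inr h1
        · exact absurd h1 hNe
    have hWt := uniq (two_blk hW) hblk (by rw [← hw]; exact hTV U hU)
    have hcW : ∀ t ≤ k, ∀ e, ∃ r : ℕ, (W t).count e =
        r + (f 0).count e * psh k1 g (ty U 0) t + (f 1).count e * psh k1 g (ty U 1) t := by
      intro t ht e
      obtain ⟨r, hr⟩ := hC k1 (k + k1 + 2) f (T t) g t (hTf t ht) e
      refine ⟨r, ?_⟩
      rw [hWt t ht]
      exact hr U hU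
    have hle0 : ∀ e ∈ f 0, ∀ t ≤ k, psh k1 g (ty U 0) t ≤ (W t).count e := by
      intro e he t ht
      obtain ⟨r, hr⟩ := hcW t ht e
      have h1 : 1 ≤ (f 0).count e := List.count_pos_iff.2 he
      have h2 := Nat.mul_le_mul_right (psh k1 g (ty U 0) t) h1
      omega
    have hle1 : ∀ e ∈ f 1, ∀ t ≤ k, psh k1 g (ty U 1) t ≤ (W t).count e := by
      intro e he t ht
      obtain ⟨r, hr⟩ := hcW t ht e
      have h1 : 1 ≤ (f 1).count e := List.count_pos_iff.2 he
      have h2 := Nat.mul_le_mul_right (psh k1 g (ty U 1) t) h1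
      omega
    rcases hlet 0 (Or.inl rfl) c hc with rfl | rfl
    · rcases hlet 1 (Or.inr rfl) d hd with rfl | rfl
      · exact hcd rfl
      · exact (hI g hg).1 ⟨fun t ht => ub_of_sat _ (hA t ht) (hle0 0 hc t ht),
          fun t ht => ub_of_sat _ (hB t ht) (hle1 1 hd t ht)⟩
    · rcases hlet 1 (Or.inr rfl) d hd with rfl | rfl
      · exact (hI g hg).2 ⟨fun t ht => ub_of_sat _ (hA t ht) (hle1 0 hd t ht),
          fun t ht => ub_of_sat _ (hB t ht) (hle0 1 hc t ht)⟩
      · exact hcd rfl
  have e : (asm k1 U).flatMap f = (asm k1 V).flatMap f := by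
    refine asm_flat fun j hj => perm_flat (comm_of key) ?_ (hU j hj)
    rw [List.perm_iff_count]
    exact hUV j hj
  rw [← e]
  exact h

theorem nin (hN : NdcStmt) (hC : NctStmt) : NinStmt := by
  intro k k1 A B S i U V hU hV hUV d0 d1 hI
  have ht : ∀ c, ∀ j ≤ k1, ty V c j = ty U c j := fun c j hj => (hUV j hj c).symm
  have hdeg : ∀ c, deg k1 (ty V c) = deg k1 (ty U c) := by
    intro c
    unfold deg
    refine Finset.sum_congr rfl fun j hj => ht c j ?_
    rw [Finset.mem_range] at hj
    omega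
  have hpsh : ∀ c g t, psh k1 g (ty V c) t = psh k1 g (ty U c) t := by
    intro c g t
    unfold psh
    refine Finset.sum_congr rfl fun j hj => ?_
    rw [Finset.mem_range] at hj
    rw [ht c j (by omega)]
  refine RR_gaml fun f p q => ⟨?_, ?_⟩
  · exact dir hN hC k k1 A B S i U V hU hUV d0 d1 hI f p q
  · refine dir hN hC k k1 A B S i V U hV (fun j hj c => (hUV j hj c).symm) ?_ ?_ ?_ f p q
    · rw [hdeg]; exact d0
    · rw [hdeg]; exact d1
    · intro g hg
      have := hI g hg
      unfold Into at this ⊢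
      simp only [hpsh]
      exact this

end Pool.Agent.MWN.H77
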